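import Pool.Agent.U831.MC.Asm
import Pool.Agent.U831.MC.T_SET
import Pool.Agent.U831.MC.T_NRG
import Pool.Agent.U831.MC.T_CLS
import Pool.Agent.U831.MC.T_FIX
import Pool.Agent.U831.MC.T_REC
import Pool.Agent.U831.MC.T_HIT
import Pool.Agent.U831.MC.T_KBG
import Pool.Agent.U831.MC.T_RIG
import Pool.Agent.U831.MC.T_PIG
import Pool.Agent.U831.MC.T_UNA
import Pool.Agent.U831.MC.T_RCV

namespace Pool.Agent.Results.MP_3a8f7c_lc.MinimalForBounded

open Pool.Agent.R679.Tr Pool.Agent.U831.MC

/-- There is a non-regular language `L` over one letter (so `L` is bounded of degree one) such that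
the rational cone generated by `L` is minimal with respect to bounded languages of degree `k` for
every `k`: every bounded language in this cone is regular or generates the cone. -/
theorem result : ∃ L : Language (Fin 1), ¬ L.IsRegular ∧ BoundedDeg 1 L ∧ L ∈ gen L 1 ∧
    IsCone (gen L) ∧ ∀ k, MinimalWrt k (gen L) :=
  main_of t_SET t_NRG t_CLS t_FIX t_SLC t_REC t_HIT t_KBG t_RIG t_PIG t_UNA t_RCV

end Pool.Agent.Results.MP_3a8f7c_lc.MinimalForBounded
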